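import Pool.Agent.W187.CV.Points

/-!
# Orders of zeta functions of arithmetic schemes from point counts

Let `X` be a scheme of finite type over `ℤ`, `ζ(X, s) = exp ∑_p ∑_{j ≥ 1} #X(F_{p^j}) / (j p^{js})`. The points of `X`
are those of a finite disjoint union of affine schemes of finite type over `ℤ` (`pieces`); this is how `X` is given
here. Let `F` be a continuation of `ζ(X, s)` along the real half line `[s₀, ∞)`, meromorphic at its points. For the
rotated kernel `K(u) = e^{icu} / Γ(1 + u)`, `c > π/2`, and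

`S(X) = ∑_p ∑_j #X(F_{p^j}) / (j p^{j s₀}) K(j log p / log X)`

the series converges absolutely and `S(X) = -r loglog X + κ + O(1 / log X)`, `r` the order of `F` at `s₀`,
`e^{κ - rΛ}` the leading coefficient. So the order at `s₀ = 0` in Soulé's conjecture is read off the point counts,
without a functional equation or any hypothesis on zeros or poles: the conjecture for `X` says that
`S(X) / loglog X` tends to `∑_i (-1)^i dim H^{2d-i}(X, ℚ(d))`.
-/

set_option autoImplicit false

namespace Pool.Agent.Results.MP_f3836a_nt.OrderFromPointCounts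

open Pool.Agent.W187.UR Pool.Agent.W187.CV Filter Topology Asymptotics

/-- **The order of the zeta function of an arithmetic scheme at a real point from point counts.** -/
theorem result (V : List Piece) (F : ℂ → ℂ) (A : ℝ)
    (hF : ∀ s : ℂ, A < s.re → F s = Complex.exp (logL (fun p j => (points V p j : ℂ)) s))
    (s₀ : ℝ) (hm : ∀ x : ℝ, s₀ ≤ x → MeromorphicAt F x) :
    (∀ c X : ℝ, 1 < X → Summable fun x => ‖rterm (fun p j => (points V p j : ℂ)) s₀ c X x‖) ∧
    ∃ r : ℤ, meromorphicOrderAt F s₀ = r ∧ ∀ c : ℝ, Real.pi / 2 < c →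
      (∃ κ : ℂ, Complex.exp (κ - r * Lam c) = meromorphicTrailingCoeffAt F s₀ ∧
        (fun X : ℝ => rsum (fun p j => (points V p j : ℂ)) s₀ c X +
          r * Real.log (Real.log X) - κ) =O[atTop] (fun X : ℝ => 1 / Real.log X)) ∧
      ∀ ρ : ℝ, ((r : ℝ) = ρ ↔
        Tendsto (fun X : ℝ => (rsum (fun p j => (points V p j : ℂ)) s₀ c X).re /
          Real.log (Real.log X)) atTop (𝓝 (-ρ))) := by
  obtain ⟨a, ha⟩ := points_le V
  have ht : ∀ p j : ℕ, p.Prime → 1 ≤ j → ‖((points V p j : ℕ) : ℂ)‖ ≤
      V.length * (p : ℝ) ^ ((max (a : ℝ) A) * j) := by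
    intro p j hp hj
    rw [Complex.norm_natCast]
    refine (ha p j hp hj).trans ?_
    have hp1 : (1 : ℝ) ≤ p := by exact_mod_cast hp.one_le
    refine mul_le_mul_of_nonneg_left ?_ (Nat.cast_nonneg _)
    refine Real.rpow_le_rpow_of_exponent_le hp1 ?_
    exact mul_le_mul_of_nonneg_right (le_max_left _ _) (Nat.cast_nonneg _)
  refine ⟨fun c X hX => rterm_summable Pool.Agent.W83.CV.primes Pool.Agent.W125.CV.absc ht s₀ c hX,
    ?_⟩
  obtain ⟨r, h1, h2⟩ := law_log ht (F := F) (fun s hs => hF s (by
    have := le_max_right (a : ℝ) A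
    linarith)) hm
  refine ⟨r, h1, fun c hc => ⟨h2 c hc, fun ρ => ?_⟩⟩
  obtain ⟨κ, -, hO⟩ := h2 c hc
  have hll : Tendsto (fun X : ℝ => Real.log (Real.log X)) atTop atTop :=
    Real.tendsto_log_atTop.comp Real.tendsto_log_atTop
  have hlogc : Tendsto (fun X : ℝ => 1 / Real.log X) atTop (𝓝 0) :=
    tendsto_const_nhds.div_atTop Real.tendsto_log_atTop
  have h3 := hO.trans_tendsto hlogc
  have h4 : Tendsto (fun X : ℝ => (rsum (fun p j => (points V p j : ℂ)) s₀ c X +
      r * Real.log (Real.log X) - κ).re) atTop (𝓝 0) := by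
    have := (Complex.continuous_re.tendsto 0).comp h3
    rw [Complex.zero_re] at this
    exact this
  have h5 : Tendsto (fun X : ℝ => (rsum (fun p j => (points V p j : ℂ)) s₀ c X).re +
      r * Real.log (Real.log X)) atTop (𝓝 κ.re) := by
    have := h4.add_const κ.re
    rw [zero_add] at this
    refine this.congr fun X => ?_
    simp
  have h6 : Tendsto (fun X : ℝ => (rsum (fun p j => (points V p j : ℂ)) s₀ c X).re /
      Real.log (Real.log X)) atTop (𝓝 (-(r : ℝ))) := by
    have h7 := (h5.div_atTop hll).sub_const (r : ℝ)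
    rw [zero_sub] at h7
    refine h7.congr' ?_
    filter_upwards [hll.eventually_gt_atTop 0] with X hX
    field_simp
    ring
  constructor
  · intro h
    rw [← h]
    exact h6
  · intro h
    have := tendsto_nhds_unique h6 h
    linarith

end Pool.Agent.Results.MP_f3836a_nt.OrderFromPointCounts
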